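import Pool.Agent.helper37.CZ.Spec

/-!
# Row `cz:CBD`
-/

set_option autoImplicit false

open scoped Matrix Topology ComplexConjugate
open Filter

namespace Pool.Agent.CZ

theorem CBD_tr {X : Type} [TopologicalSpace X] {α : X ≃ₜ X} {k : ℕ}
    {E : X → ℤ × Fin k → ℤ × Fin k → ℂ} (hK : Ker α k E) (m : ℕ) : ∀ (x : X) (p q : ℤ × Fin k),
    E ((α ^ (m : ℤ)) x) p q = E x (p.1 + m, p.2) (q.1 + m, q.2) := by
  induction m with
  | zero =>
    intro x p q
    have : (α ^ ((0 : ℕ) : ℤ)) x = x := by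
      rw [Nat.cast_zero, zpow_zero]; rfl
    rw [this]
    simp
  | succ m ih =>
    intro x p q
    have : (α ^ ((m + 1 : ℕ) : ℤ)) x = α ((α ^ (m : ℤ)) x) := by
      rw [Nat.cast_succ, add_comm (m : ℤ) 1, zpow_add, zpow_one]; rfl
    rw [this, hK.tr, ih]
    push_cast
    rw [show p.1 + 1 + (m : ℤ) = p.1 + (m + 1) by ring, show q.1 + 1 + (m : ℤ) = q.1 + (m + 1) by ring]

theorem CBD_geo (ρ : ℝ) (h0 : 0 < ρ) (h1 : ρ < 1) (N : ℕ) :
    ∑ i ∈ Finset.range N, ρ ^ i ≤ (1 - ρ)⁻¹ := by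
  have hs := summable_geometric_of_lt_one h0.le h1
  rw [← tsum_geometric_of_lt_one h0.le h1]
  exact hs.sum_le_tsum _ (fun i _ => by positivity)

theorem CBD_dd (ρ : ℝ) (h0 : 0 < ρ) (h1 : ρ < 1) (N : ℕ) :
    ∑ i ∈ Finset.range N, ρ ^ dd N i ≤ 2 * (1 - ρ)⁻¹ := by
  have e1 : ∀ i ∈ Finset.range N, ρ ^ dd N i ≤ ρ ^ i + ρ ^ (N - 1 - i) := by
    intro i hi
    rw [Finset.mem_range] at hi
    unfold dd
    rcases le_total (i + 1) (N - i) with h | h
    · rw [min_eq_left h]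
      have : ρ ^ (i + 1) ≤ ρ ^ i := pow_le_pow_of_le_one h0.le h1.le (by omega)
      have : 0 ≤ ρ ^ (N - 1 - i) := by positivity
      linarith
    · rw [min_eq_right h]
      have : ρ ^ (N - i) ≤ ρ ^ (N - 1 - i) := pow_le_pow_of_le_one h0.le h1.le (by omega)
      have : 0 ≤ ρ ^ i := by positivity
      linarith
  refine (Finset.sum_le_sum e1).trans ?_
  rw [Finset.sum_add_distrib, Finset.sum_range_reflect (fun i => ρ ^ i) N]
  have := CBD_geo ρ h0 h1 N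
  linarith

theorem CBD (h1 : EXB_stmt) (h2 : DTP_stmt) (h3 : DEX_stmt) : CBD_stmt := by
  intro X _ α k E hK
  obtain ⟨C, ρ, hρ0, hρ1, hC, hb⟩ := h1 X α k E hK
  obtain ⟨B, hB⟩ : ∃ B : ℝ, B = k * (2 * (1 - ρ)⁻¹) := ⟨_, rfl⟩
  refine ⟨Real.exp (C * B ^ 2), fun x N => ?_⟩
  obtain ⟨z, hz⟩ : ∃ z : ℂ, z = -(2 * Real.pi * Complex.I) := ⟨_, rfl⟩
  have hdet : Complex.exp (-(2 * Real.pi * Complex.I *
      ∑ m ∈ Finset.range N, trE E ((α ^ (m : ℤ)) x))) = (vN E x N z).det := by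
    unfold vN
    rw [h3]
    congr 1
    have e1 : (z • aN E x N).trace = z * (aN E x N).trace := by
      rw [Matrix.trace_smul, smul_eq_mul]
    have e2 : (aN E x N).trace = ∑ m ∈ Finset.range N, trE E ((α ^ (m : ℤ)) x) := by
      unfold Matrix.trace
      rw [Fintype.sum_prod_type, ← Fin.sum_univ_eq_sum_range (fun m : ℕ => trE E ((α ^ (m : ℤ)) x)) N]
      apply Finset.sum_congr rfl
      intro i _
      unfold trE
      apply Finset.sum_congr rfl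
      intro a _
      rw [CBD_tr hK]
      show E x (((i : ℕ) : ℤ), a) (((i : ℕ) : ℤ), a) = E x ((0 : ℤ) + ((i : ℕ) : ℤ), a) ((0 : ℤ) + ((i : ℕ) : ℤ), a)
      rw [zero_add]
    rw [e1, e2, hz]
    ring
  rw [hdet]
  have h4 := (h2 (Fin N × Fin k) (vN E x N z - 1) 0).1
  rw [add_sub_cancel] at h4
  refine h4.trans (Real.exp_le_exp.2 ?_)
  have hent : ∀ p q : Fin N × Fin k, ‖(vN E x N z - 1) p q‖ ≤
      C * (ρ ^ dd N p.1 * ρ ^ dd N q.1) := by
    intro p q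
    have h5 := ((hb z (Or.inr hz)).1 x N ((p.1 : ℕ), p.2) ((q.1 : ℕ), q.2) p.1.2 q.1.2).1
    have e1 : ent (vN E x N z) ((p.1 : ℕ), p.2) ((q.1 : ℕ), q.2) = vN E x N z p q := by
      unfold ent
      rw [dif_pos ⟨p.1.2, q.1.2⟩]
    have e2 : (if (((p.1 : ℕ), p.2) : ℕ × Fin k) = ((q.1 : ℕ), q.2) then (1 : ℂ) else 0) =
        (1 : Matrix (Fin N × Fin k) (Fin N × Fin k) ℂ) p q := by
      rw [Matrix.one_apply]
      by_cases h : p = q
      · rw [if_pos h, if_pos (by rw [h])]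
      · rw [if_neg h, if_neg]
        intro h6
        apply h
        obtain ⟨h7, h8⟩ := Prod.mk.inj h6
        exact Prod.ext (Fin.ext h7) h8
    rw [e1, e2, pow_add] at h5
    exact h5
  have hS : ∑ p : Fin N × Fin k, ρ ^ dd N p.1 ≤ B := by
    rw [Fintype.sum_prod_type]
    have e1 : ∀ i : Fin N, ∑ _a : Fin k, ρ ^ dd N i = k * ρ ^ dd N i := by
      intro i
      rw [Finset.sum_const, Finset.card_univ, Fintype.card_fin, nsmul_eq_mul]
    simp only [e1]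
    rw [← Finset.mul_sum, Fin.sum_univ_eq_sum_range (fun i : ℕ => ρ ^ dd N i) N, hB]
    exact mul_le_mul_of_nonneg_left (CBD_dd ρ hρ0 hρ1 N) (by positivity)
  have hS0 : 0 ≤ ∑ p : Fin N × Fin k, ρ ^ dd N p.1 := by positivity
  calc ∑ p, ∑ q, ‖(vN E x N z - 1) p q‖ ≤ ∑ p : Fin N × Fin k, ∑ q : Fin N × Fin k,
        C * (ρ ^ dd N p.1 * ρ ^ dd N q.1) :=
        Finset.sum_le_sum fun p _ => Finset.sum_le_sum fun q _ => hent p q
    _ = C * (∑ p : Fin N × Fin k, ρ ^ dd N p.1) ^ 2 := by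
        rw [sq, Finset.sum_mul_sum, Finset.mul_sum]
        apply Finset.sum_congr rfl
        intro p _
        rw [Finset.mul_sum]
    _ ≤ C * B ^ 2 := by
        apply mul_le_mul_of_nonneg_left _ hC
        exact pow_le_pow_left₀ hS0 hS 2

end Pool.Agent.CZ
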