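import Pool.Agent.helper37.CZ.Spec

/-!
# Row `cz:CEX`
-/

set_option autoImplicit false

open scoped Matrix Topology ComplexConjugate
open Filter

namespace Pool.Agent.CZ

theorem CEX_sh_comp {X : Type} [TopologicalSpace X] (α : X ≃ₜ X) (m n : ℤ) (f : C(X, ℂ)) :
    sh α m (sh α n f) = sh α (n + m) f := by
  ext x
  show f ((α ^ n) ((α ^ m) x)) = f ((α ^ (n + m)) x)
  rw [zpow_add]; rfl

theorem CEX_sh_zero {X : Type} [TopologicalSpace X] (α : X ≃ₜ X) (f : C(X, ℂ)) :
    sh α 0 f = f := by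
  ext x
  show f ((α ^ (0 : ℤ)) x) = f x
  rw [zpow_zero]; rfl

theorem CEX_up_add {A : Type} [CStarAlgebra A] (u : unitary A) (m n : ℤ) :
    up u (m + n) = up u m * up u n := by
  unfold up
  rw [zpow_add]; rfl

theorem CEX_up_zero {A : Type} [CStarAlgebra A] (u : unitary A) : up u 0 = 1 := by
  unfold up
  rw [zpow_zero]; rfl

theorem CEX : CEX_stmt := by
  intro X _ _ α A _ ι u c hc
  have h1 : ∀ f : C(X, ℂ), up u 1 * ι f = ι (sh α (-1) f) * up u 1 := by
    intro f
    have h := hc.cov f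
    have hu : up u 1 = (u : A) := by unfold up; rw [zpow_one]
    have hs : sh α (-1) f = f.comp (α.symm : C(X, X)) := by
      ext x
      show f ((α ^ (-1 : ℤ)) x) = f (α.symm x)
      rw [zpow_neg_one]; rfl
    rw [hu, hs, ← h, mul_assoc, Unitary.coe_star_mul_self, mul_one]
  have h1' : ∀ f : C(X, ℂ), up u (-1) * ι f = ι (sh α 1 f) * up u (-1) := by
    intro f
    have h := h1 (sh α 1 f)
    rw [CEX_sh_comp] at h
    rw [show (1 : ℤ) + -1 = 0 by norm_num, CEX_sh_zero] at h
    have e1 : up u (-1) * up u 1 = 1 := by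
      rw [← CEX_up_add, show (-1 : ℤ) + 1 = 0 by norm_num, CEX_up_zero]
    have e2 : up u 1 * up u (-1) = 1 := by
      rw [← CEX_up_add, show (1 : ℤ) + -1 = 0 by norm_num, CEX_up_zero]
    calc up u (-1) * ι f = up u (-1) * (ι f * up u 1) * up u (-1) := by
          rw [mul_assoc, mul_assoc, e2, mul_one]
      _ = up u (-1) * (up u 1 * ι (sh α 1 f)) * up u (-1) := by rw [h]
      _ = ι (sh α 1 f) * up u (-1) := by rw [← mul_assoc, e1, one_mul]
  intro n
  induction n using Int.induction_on with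
  | zero =>
    intro f
    rw [CEX_up_zero, neg_zero, CEX_sh_zero, one_mul, mul_one]
  | succ i ih =>
    intro f
    rw [CEX_up_add, mul_assoc, h1, ← mul_assoc, ih, CEX_sh_comp, mul_assoc]
    rw [show (-1 : ℤ) + -(i : ℤ) = -((i : ℤ) + 1) by ring]
  | pred i ih =>
    intro f
    rw [sub_eq_add_neg, CEX_up_add, mul_assoc, h1', ← mul_assoc, ih, CEX_sh_comp, mul_assoc]
    rw [show (1 : ℤ) + -(-(i : ℤ)) = -(-(i : ℤ) + -1) by ring]

end Pool.Agent.CZ
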