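import Pool.Agent.helper37.CZ.Spec

/-!
# Row `cz:COE`
-/

set_option autoImplicit false

open scoped Matrix Topology ComplexConjugate
open Filter

namespace Pool.Agent.CZ

/-- the Hilbert space -/
abbrev COE_H : Type := lp (fun _ : ℤ => ℂ) 2

theorem COE_two : 0 < (2 : ENNReal).toReal := by norm_num

theorem COE_sum (φ : ℤ → ℂ) (k : ℤ) (C : ℝ) (hC : ∀ n, ‖φ n‖ ≤ C) (h : COE_H) :
    Summable (fun n => ‖φ n * h (n - k)‖ ^ (2 : ENNReal).toReal) ∧
    ∑' n, ‖φ n * h (n - k)‖ ^ (2 : ENNReal).toReal ≤ (C * ‖h‖) ^ (2 : ENNReal).toReal := by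
  have hC0 : 0 ≤ C := (norm_nonneg (φ 0)).trans (hC 0)
  have h1 : HasSum (fun n => ‖h (n - k)‖ ^ (2 : ENNReal).toReal)
      (‖h‖ ^ (2 : ENNReal).toReal) :=
    (Equiv.subRight k).hasSum_iff.2 (lp.hasSum_norm COE_two h)
  have h2 : HasSum (fun n => C ^ (2 : ENNReal).toReal * ‖h (n - k)‖ ^ (2 : ENNReal).toReal)
      (C ^ (2 : ENNReal).toReal * ‖h‖ ^ (2 : ENNReal).toReal) := h1.mul_left _
  have h3 : ∀ n, ‖φ n * h (n - k)‖ ^ (2 : ENNReal).toReal ≤
      C ^ (2 : ENNReal).toReal * ‖h (n - k)‖ ^ (2 : ENNReal).toReal := by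
    intro n
    rw [← Real.mul_rpow hC0 (norm_nonneg _)]
    apply Real.rpow_le_rpow (norm_nonneg _) _ COE_two.le
    rw [norm_mul]
    exact mul_le_mul_of_nonneg_right (hC n) (norm_nonneg _)
  have h4 : Summable (fun n => ‖φ n * h (n - k)‖ ^ (2 : ENNReal).toReal) :=
    Summable.of_nonneg_of_le (fun n => Real.rpow_nonneg (norm_nonneg _) _) h3 h2.summable
  refine ⟨h4, ?_⟩
  rw [Real.mul_rpow hC0 (norm_nonneg _), ← h2.tsum_eq]
  exact h4.tsum_le_tsum h3 h2.summable

/-- `(T h)(n) = φ(n) h(n - k)` -/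
noncomputable def COE_T (φ : ℤ → ℂ) (k : ℤ) (C : ℝ) (hC : ∀ n, ‖φ n‖ ≤ C) :
    COE_H →L[ℂ] COE_H :=
  LinearMap.mkContinuous
    { toFun := fun h => ⟨fun n => φ n * h (n - k), memℓp_gen (COE_sum φ k C hC h).1⟩
      map_add' := fun h h' => by
        apply lp.ext
        funext n
        show φ n * (h + h') (n - k) = φ n * h (n - k) + φ n * h' (n - k)
        rw [lp.coeFn_add, Pi.add_apply, mul_add]
      map_smul' := fun c h => by
        apply lp.ext
        funext n
        show φ n * (c • h) (n - k) = c * (φ n * h (n - k))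
        rw [lp.coeFn_smul, Pi.smul_apply, smul_eq_mul]
        ring } C
    (fun h => by
      have hC0 : 0 ≤ C := (norm_nonneg (φ 0)).trans (hC 0)
      exact lp.norm_le_of_tsum_le COE_two (mul_nonneg hC0 (norm_nonneg _))
        (COE_sum φ k C hC h).2)

theorem COE_T_apply (φ : ℤ → ℂ) (k : ℤ) (C : ℝ) (hC : ∀ n, ‖φ n‖ ≤ C) (h : COE_H) (n : ℤ) :
    (COE_T φ k C hC h) n = φ n * h (n - k) := rfl

theorem COE_ext {S T : COE_H →L[ℂ] COE_H} (h : ∀ (x : COE_H) (n : ℤ), (S x) n = (T x) n) :
    S = T := ContinuousLinearMap.ext fun x => lp.ext (funext fun n => h x n)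

theorem COE_T_star (φ φ' : ℤ → ℂ) (k k' : ℤ) (C C' : ℝ) (hC : ∀ n, ‖φ n‖ ≤ C)
    (hC' : ∀ n, ‖φ' n‖ ≤ C') (hk : k' = -k) (h : ∀ n, φ' n = conj (φ (n + k))) :
    COE_T φ' k' C' hC' = star (COE_T φ k C hC) := by
  subst hk
  rw [ContinuousLinearMap.star_eq_adjoint, ContinuousLinearMap.eq_adjoint_iff]
  intro x y
  rw [lp.inner_eq_tsum, lp.inner_eq_tsum]
  rw [← (Equiv.addRight k).tsum_eq (fun n => inner ℂ (x n) ((COE_T φ k C hC y) n))]
  apply tsum_congr
  intro n
  rw [Equiv.coe_addRight, COE_T_apply, COE_T_apply, h]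
  rw [RCLike.inner_apply, RCLike.inner_apply, sub_neg_eq_add, add_sub_cancel_right, map_mul,
    Complex.conj_conj]
  ring

theorem COE_zpow {A B : Type} [CStarAlgebra A] [CStarAlgebra B] (Φ : A →⋆ₐ[ℂ] B)
    (u : unitary A) (v : unitary B) (h : Φ (u : A) = v) (k : ℤ) :
    Φ ((u ^ k : unitary A) : A) = ((v ^ k : unitary B) : B) := by
  induction k using Int.induction_on with
  | zero => rw [zpow_zero, zpow_zero]; exact map_one Φ
  | succ i ih =>
    rw [zpow_add_one, zpow_add_one]
    show Φ (((u ^ (i : ℤ) : unitary A) : A) * (u : A)) = ((v ^ (i : ℤ) : unitary B) : B) * (v : B)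
    rw [map_mul, ih, h]
  | pred i ih =>
    rw [zpow_sub_one, zpow_sub_one]
    show Φ (((u ^ (-(i : ℤ)) : unitary A) : A) * star (u : A)) =
      ((v ^ (-(i : ℤ)) : unitary B) : B) * star (v : B)
    rw [map_mul, ih, map_star, h]

theorem COE_one (n : ℤ) : ‖(fun _ : ℤ => (1 : ℂ)) n‖ ≤ 1 := by simp

/-- the shift -/
noncomputable def COE_v : unitary (COE_H →L[ℂ] COE_H) :=
  ⟨COE_T (fun _ => 1) 1 1 COE_one, by
    rw [Unitary.mem_iff]
    have h1 : star (COE_T (fun _ => 1) 1 1 COE_one) = COE_T (fun _ => 1) (-1) 1 COE_one :=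
      (COE_T_star _ _ _ _ _ _ _ _ rfl (fun n => by simp)).symm
    rw [h1]
    constructor
    · apply COE_ext
      intro x n
      show (COE_T (fun _ => 1) (-1) 1 COE_one (COE_T (fun _ => 1) 1 1 COE_one x)) n = x n
      rw [COE_T_apply, COE_T_apply, one_mul, one_mul, show n - -1 - 1 = n by ring]
    · apply COE_ext
      intro x n
      show (COE_T (fun _ => 1) 1 1 COE_one (COE_T (fun _ => 1) (-1) 1 COE_one x)) n = x n
      rw [COE_T_apply, COE_T_apply, one_mul, one_mul, show n - 1 - -1 = n by ring]⟩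

theorem COE_star_v : star (COE_v : COE_H →L[ℂ] COE_H) = COE_T (fun _ => 1) (-1) 1 COE_one := by
  show star (COE_T (fun _ => 1) 1 1 COE_one) = _
  exact (COE_T_star _ _ _ _ _ _ _ _ rfl (fun n => by simp)).symm

theorem COE_vpow (k : ℤ) : ((COE_v ^ k : unitary (COE_H →L[ℂ] COE_H)) : COE_H →L[ℂ] COE_H) =
    COE_T (fun _ => 1) k 1 COE_one := by
  induction k using Int.induction_on with
  | zero =>
    rw [zpow_zero]
    apply COE_ext
    intro x n
    rw [COE_T_apply, one_mul, sub_zero]
    rfl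
  | succ i ih =>
    rw [zpow_add_one]
    show ((COE_v ^ (i : ℤ) : unitary (COE_H →L[ℂ] COE_H)) : COE_H →L[ℂ] COE_H) *
      (COE_v : COE_H →L[ℂ] COE_H) = _
    rw [ih]
    apply COE_ext
    intro x n
    show (COE_T (fun _ => 1) i 1 COE_one (COE_T (fun _ => 1) 1 1 COE_one x)) n = _
    rw [COE_T_apply, COE_T_apply, COE_T_apply, one_mul, one_mul, one_mul,
      show n - (i : ℤ) - 1 = n - (i + 1) by ring]
  | pred i ih =>
    rw [zpow_sub_one]
    show ((COE_v ^ (-(i : ℤ)) : unitary (COE_H →L[ℂ] COE_H)) : COE_H →L[ℂ] COE_H) *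
      star (COE_v : COE_H →L[ℂ] COE_H) = _
    rw [ih, COE_star_v]
    apply COE_ext
    intro x n
    show (COE_T (fun _ => 1) (-(i : ℤ)) 1 COE_one (COE_T (fun _ => 1) (-1) 1 COE_one x)) n = _
    rw [COE_T_apply, COE_T_apply, COE_T_apply, one_mul, one_mul, one_mul,
      show n - -(i : ℤ) - -1 = n - (-(i : ℤ) - 1) by ring]

section

variable {X : Type} [TopologicalSpace X] [CompactSpace X]

/-- multiplication by the values along the orbit -/
noncomputable def COE_m (α : X ≃ₜ X) (x : X) (f : C(X, ℂ)) : COE_H →L[ℂ] COE_H :=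
  COE_T (fun n => f ((α ^ n) x)) 0 ‖f‖ (fun n => f.norm_coe_le_norm _)

theorem COE_m_apply (α : X ≃ₜ X) (x : X) (f : C(X, ℂ)) (h : COE_H) (n : ℤ) :
    (COE_m α x f h) n = f ((α ^ n) x) * h n := by
  unfold COE_m
  rw [COE_T_apply, sub_zero]

/-- the representation -/
noncomputable def COE_j (α : X ≃ₜ X) (x : X) : C(X, ℂ) →⋆ₐ[ℂ] (COE_H →L[ℂ] COE_H) where
  toFun := COE_m α x
  map_one' := COE_ext fun h n => by
    rw [COE_m_apply, ContinuousMap.one_apply, one_mul]; rfl
  map_mul' f g := COE_ext fun h n => by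
    show _ = (COE_m α x f (COE_m α x g h)) n
    rw [COE_m_apply, COE_m_apply, COE_m_apply, ContinuousMap.mul_apply, mul_assoc]
  map_zero' := COE_ext fun h n => by
    rw [COE_m_apply, ContinuousMap.zero_apply, zero_mul]; rfl
  map_add' f g := COE_ext fun h n => by
    show _ = (COE_m α x f h + COE_m α x g h) n
    rw [lp.coeFn_add, Pi.add_apply, COE_m_apply, COE_m_apply, COE_m_apply,
      ContinuousMap.add_apply, add_mul]
  commutes' r := COE_ext fun h n => by
    rw [COE_m_apply, Algebra.algebraMap_eq_smul_one, Algebra.algebraMap_eq_smul_one]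
    show (r • (1 : C(X, ℂ))) ((α ^ n) x) * h n = (r • h) n
    rw [lp.coeFn_smul, Pi.smul_apply, ContinuousMap.smul_apply, ContinuousMap.one_apply,
      smul_eq_mul, smul_eq_mul, mul_one]
  map_star' f := by
    unfold COE_m
    apply COE_T_star
    · simp
    · intro n
      rw [add_zero, ContinuousMap.star_apply]
      rfl

theorem COE_cov (α : X ≃ₜ X) (x : X) (f : C(X, ℂ)) :
    (COE_v : COE_H →L[ℂ] COE_H) * COE_j α x f * star (COE_v : COE_H →L[ℂ] COE_H) =
      COE_j α x (f.comp (α.symm : C(X, X))) := by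
  rw [COE_star_v]
  apply COE_ext
  intro h n
  show (COE_T (fun _ => 1) 1 1 COE_one (COE_m α x f (COE_T (fun _ => 1) (-1) 1 COE_one h))) n =
    (COE_m α x (f.comp (α.symm : C(X, X))) h) n
  rw [COE_T_apply, COE_m_apply, COE_m_apply, COE_T_apply, one_mul, one_mul]
  have h1 : n - 1 - -1 = n := by ring
  rw [h1]
  congr 1
  show f ((α ^ (n - 1)) x) = f (α.symm ((α ^ n) x))
  congr 1
  have h2 : α ^ (n - 1) = α⁻¹ * α ^ n := by
    rw [← zpow_neg_one, ← zpow_add]
    congr 1
    ring
  rw [h2]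
  rfl

end

theorem COE : COE_stmt := by
  classical
  intro X _ _ α A _ ι u hA
  have hex := fun x : X => hA.univ (COE_H →L[ℂ] COE_H) (COE_j α x) COE_v (COE_cov α x)
  choose Φ hΦ1 hΦ2 using hex
  obtain ⟨cf, hcf⟩ : ∃ cf : ℤ → X → A → ℂ, ∀ n x a, cf n x a =
      (Φ x a (lp.single 2 (-n) (1 : ℂ))) 0 := ⟨_, fun _ _ _ => rfl⟩
  have hadd : ∀ n x a b, cf n x (a + b) = cf n x a + cf n x b := by
    intro n x a b
    rw [hcf, hcf, hcf, map_add]
    rfl
  have hsmul : ∀ n x (r : ℂ) a, cf n x (r • a) = r * cf n x a := by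
    intro n x r a
    rw [hcf, hcf, map_smul]
    rfl
  have hnorm : ∀ n x a, ‖cf n x a‖ ≤ ‖a‖ := by
    intro n x a
    rw [hcf]
    calc ‖(Φ x a (lp.single 2 (-n) (1 : ℂ))) 0‖ ≤ ‖Φ x a (lp.single 2 (-n) (1 : ℂ))‖ :=
          lp.norm_apply_le_norm (by norm_num) _ _
      _ ≤ ‖Φ x a‖ * ‖(lp.single 2 (-n) (1 : ℂ) : COE_H)‖ := ContinuousLinearMap.le_opNorm _ _
      _ ≤ ‖a‖ * 1 := by
          apply mul_le_mul (NonUnitalStarAlgHom.norm_apply_le (Φ x) a) _ (norm_nonneg _)
            (norm_nonneg _)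
          rw [lp.norm_single (by norm_num)]
          simp
      _ = ‖a‖ := mul_one _
  have hval : ∀ n x f k, cf n x (ι f * up u k) = if n = k then f x else 0 := by
    intro n x f k
    rw [hcf, map_mul, hΦ1]
    unfold up
    rw [COE_zpow (Φ x) u COE_v (hΦ2 x) k, COE_vpow]
    show (COE_m α x f (COE_T (fun _ => 1) k 1 COE_one (lp.single 2 (-n) (1 : ℂ)))) 0 = _
    rw [COE_m_apply, COE_T_apply, one_mul, zpow_zero, lp.single_apply]
    show f x * _ = _
    by_cases hnk : n = k
    · subst hnk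
      rw [if_pos rfl, zero_sub, Pi.single_eq_same, mul_one]
    · rw [if_neg hnk, zero_sub, Pi.single_eq_of_ne (fun h => hnk (neg_injective h).symm), mul_zero]
  have hcont : ∀ n a, Continuous (fun x => cf n x a) := by
    intro n
    -- the submodule of the elements with continuous coefficient
    let W : Submodule ℂ A :=
      { carrier := {a | Continuous (fun x => cf n x a)}
        add_mem' := fun {a b} ha hb => by
          show Continuous (fun x => cf n x (a + b))
          have : (fun x => cf n x (a + b)) = fun x => cf n x a + cf n x b := by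
            funext x; exact hadd n x a b
          rw [this]
          exact Continuous.add ha hb
        zero_mem' := by
          show Continuous (fun x => cf n x 0)
          have : (fun x => cf n x (0 : A)) = fun _ => 0 := by
            funext x
            have := hsmul n x 0 0
            rwa [zero_smul, zero_mul] at this
          rw [this]
          exact continuous_const
        smul_mem' := fun r a ha => by
          show Continuous (fun x => cf n x (r • a))
          have : (fun x => cf n x (r • a)) = fun x => r * cf n x a := by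
            funext x; exact hsmul n x r a
          rw [this]
          exact Continuous.mul continuous_const ha }
    have hW : Submodule.span ℂ {a : A | ∃ (f : C(X, ℂ)) (n : ℤ),
        a = ι f * ((u ^ n : unitary A) : A)} ≤ W := by
      rw [Submodule.span_le]
      rintro a ⟨f, k, rfl⟩
      show Continuous (fun x => cf n x (ι f * ((u ^ k : unitary A) : A)))
      have : (fun x => cf n x (ι f * ((u ^ k : unitary A) : A))) =
          fun x => if n = k then f x else 0 := by
        funext x; exact hval n x f k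
      rw [this]
      by_cases hnk : n = k
      · simp only [if_pos hnk]
        exact f.continuous
      · simp only [if_neg hnk]
        exact continuous_const
    intro a
    apply continuous_of_uniform_approx_of_continuous
    intro U hU
    obtain ⟨ε, hε, hεU⟩ := Metric.mem_uniformity_dist.1 hU
    obtain ⟨b, hb, hab⟩ := Metric.dense_iff.1 hA.dense a ε hε
    refine ⟨fun x => cf n x b, hW hab, fun x => hεU ?_⟩
    have h1 : cf n x a - cf n x b = cf n x (a - b) := by
      have h2 := hadd n x (a - b) b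
      rw [sub_add_cancel] at h2
      rw [h2]
      ring
    rw [dist_eq_norm, h1]
    refine lt_of_le_of_lt (hnorm n x (a - b)) ?_
    rw [← dist_eq_norm, dist_comm]
    exact hb
  refine ⟨fun n =>
    { toFun := fun a => ⟨fun x => cf n x a, hcont n a⟩
      map_add' := fun a b => ContinuousMap.ext fun x => hadd n x a b
      map_smul' := fun r a => ContinuousMap.ext fun x => hsmul n x r a }, hA.cov, hA.dense, ?_, ?_⟩
  · intro n a
    exact (ContinuousMap.norm_le _ (norm_nonneg _)).2 fun x => hnorm n x a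
  · intro n k f
    apply ContinuousMap.ext
    intro x
    show cf n x (ι f * up u k) = _
    rw [hval]
    split_ifs <;> rfl

end Pool.Agent.CZ
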